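import Pool.Agent.Helper58.SU.StP
import Pool.Agent.Helper48.BK.M_PS
import Pool.Agent.Helper48.BK.M_Th

/-!
# Project SU, module SUP: exponential sums of `th - LQ` over short intervals
-/

set_option autoImplicit false

namespace Pool.Agent.Helper4.SU

open Finset ArithmeticFunction Filter
open Pool.Agent.Helper58.SU
open Pool.Agent.Helper23.GK
open Pool.Agent.Helper48.BK (ex th Sx Apx StPS StTh hPS hTh ex_add_PS norm_ex_PS ex_int_PS abel_PS)

private theorem SI_sub_sup (f g : ℕ → ℝ) (y h : ℕ) (α : ℝ) :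
    SI (fun n => f n - g n) y h α = SI f y h α - SI g y h α := by
  unfold SI
  rw [← Finset.sum_sub_distrib]
  refine Finset.sum_congr rfl fun n _ => ?_
  push_cast; ring

private theorem SI_le_sup (f : ℕ → ℝ) (hf : ∀ n, 0 ≤ f n) (y h : ℕ) (α : ℝ) :
    ‖SI f y h α‖ ≤ ∑ n ∈ Ioc 0 (y + h), f n := by
  unfold SI
  refine (norm_sum_le _ _).trans ?_
  calc ∑ n ∈ Ioc y (y + h), ‖(f n : ℂ) * ex (n * α)‖ = ∑ n ∈ Ioc y (y + h), f n := by
        refine Finset.sum_congr rfl fun n _ => ?_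
        rw [norm_mul, norm_ex_PS, mul_one, Complex.norm_real, Real.norm_of_nonneg (hf n)]
    _ ≤ ∑ n ∈ Ioc 0 (y + h), f n :=
        Finset.sum_le_sum_of_subset_of_nonneg (Finset.Ioc_subset_Ioc_left (Nat.zero_le y))
          (fun n _ _ => hf n)

private theorem SI_Sx_sup (f : ℕ → ℝ) (y h : ℕ) (α : ℝ) :
    SI f y h α = Sx f (y + h) α - Sx f y α := by
  unfold SI Sx
  rw [← Finset.sum_Ioc_consecutive (fun n => (f n : ℂ) * ex (n * α)) (Nat.zero_le y)
    (Nat.le_add_right y h)]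
  ring

private theorem dec_sup (f : ℕ → ℝ) (y h q : ℕ) (a : ℤ) (β : ℝ) (hq : 1 ≤ q) :
    SI f y h (a / q + β) = ∑ u ∈ range q, ex (u * (a / q)) *
      ∑ n ∈ (Ioc y (y + h)).filter (fun n => n ≡ u [MOD q]), (f n : ℂ) * ex (n * β) := by
  classical
  have hq0 : 0 < q := by omega
  have hqR : (q : ℝ) ≠ 0 := by exact_mod_cast hq0.ne'
  unfold SI
  simp_rw [Finset.sum_filter, mul_sum]
  rw [sum_comm]
  apply sum_congr rfl
  intro n _
  rw [sum_eq_single (n % q)]
  · rw [if_pos (Nat.mod_modEq n q).symm]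
    have h1 : ex ((n : ℝ) * (a / q + β)) = ex (((n % q : ℕ) : ℝ) * (a / q)) * ex (n * β) := by
      have h2 : (n : ℝ) = ((n % q : ℕ) : ℝ) + q * ((n / q : ℕ) : ℝ) := by
        exact_mod_cast (Nat.mod_add_div n q).symm
      have h3 : (n : ℝ) * (a / q + β) = ((a * (n / q : ℕ) : ℤ) : ℝ) +
          (((n % q : ℕ) : ℝ) * (a / q) + n * β) := by
        have h4 : (n : ℝ) * (a / q) = ((a * (n / q : ℕ) : ℤ) : ℝ) +
            ((n % q : ℕ) : ℝ) * (a / q) := by
          have h5 : ((a * (n / q : ℕ) : ℤ) : ℝ) = (a : ℝ) * ((n / q : ℕ) : ℝ) := by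
            rw [Int.cast_mul, Int.cast_natCast]
          rw [h5]
          nth_rewrite 1 [h2]
          field_simp
          ring
        rw [mul_add, h4]
        ring
      rw [h3, ex_add_PS, ex_int_PS, one_mul, ex_add_PS]
    rw [h1]
    ring
  · intro u hu hne
    rw [if_neg]
    · simp
    · intro hc
      apply hne
      have h1 : n % q = u % q := hc
      rw [h1, Nat.mod_eq_of_lt (mem_range.1 hu)]
  · intro hc
    exact absurd (mem_range.2 (Nat.mod_lt n hq0)) hc

private theorem shift_sup {M : Type} [AddCommMonoid M] (g : ℕ → M) (y m : ℕ) :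
    ∑ n ∈ Ioc y (y + m), g n = ∑ n ∈ Ioc 0 m, g (y + n) := by
  have h := Finset.map_add_left_Ioc 0 m y
  rw [add_zero] at h
  rw [← h, Finset.sum_map]
  rfl

private theorem abel_sup (g : ℕ → ℝ) (β R : ℝ) (hR : 0 ≤ R) (y h : ℕ)
    (H : ∀ m ≤ h, |∑ n ∈ Ioc y (y + m), g n| ≤ R) :
    ‖∑ n ∈ Ioc y (y + h), (g n : ℂ) * ex (n * β)‖ ≤ R * (1 + 2 * Real.pi * |β| * h) := by
  have h1 := abel_PS (fun n => g (y + n)) β R hR h (fun m hm => by
    rw [← shift_sup g y m]; exact H m hm)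
  rw [shift_sup (fun n => (g n : ℂ) * ex (n * β)) y h]
  have h2 : ∑ n ∈ Ioc 0 h, (g (y + n) : ℂ) * ex (((y + n : ℕ) : ℝ) * β) =
      ex (y * β) * ∑ n ∈ Ioc 0 h, (g (y + n) : ℂ) * ex (n * β) := by
    rw [mul_sum]
    refine Finset.sum_congr rfl fun n _ => ?_
    rw [show ((y + n : ℕ) : ℝ) * β = y * β + n * β by push_cast; ring, ex_add_PS]
    ring
  rw [h2, norm_mul, norm_ex_PS, one_mul]
  exact h1

open Classical in
private theorem lq_sup (hlap : StLap) (Q q u y h : ℕ) (β : ℝ) (hq : 1 ≤ q) (hqQ : q ≤ Q) :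
    ‖∑ n ∈ (Ioc y (y + h)).filter (fun n => n ≡ u [MOD q]), (LQ Q n : ℂ) * ex (n * β) -
      (((if Nat.Coprime u q then 1 / (Nat.totient q : ℝ) else 0) : ℝ) : ℂ) *
        ∑ n ∈ Ioc y (y + h), ex (n * β)‖ ≤ 4 * (Q : ℝ) ^ 2 * (1 + 2 * Real.pi * |β| * h) := by
  set c : ℝ := (if Nat.Coprime u q then 1 / (Nat.totient q : ℝ) else 0) with hc
  have hcy : ∀ m : ℕ, (if Nat.Coprime u q then (m : ℝ) / Nat.totient q else 0) = c * m := by
    intro m
    rw [hc]
    split_ifs <;> ring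
  have h1 : ∀ m : ℕ, |∑ n ∈ Ioc 0 m, ((if n ≡ u [MOD q] then LQ Q n else 0) - c)| ≤
      2 * (Q : ℝ) ^ 2 := by
    intro m
    have h2 := hlap Q q u m hq hqQ
    rw [hcy, Finset.sum_filter] at h2
    rw [Finset.sum_sub_distrib, Finset.sum_const, Nat.card_Ioc, Nat.sub_zero, nsmul_eq_mul,
      mul_comm (m : ℝ) c]
    exact h2
  have h3 := abel_sup (fun n => (if n ≡ u [MOD q] then LQ Q n else 0) - c) β (4 * (Q : ℝ) ^ 2)
    (by positivity) y h (fun m _ => by
      have h4 := h1 (y + m)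
      have h5 := h1 y
      have h6 := Finset.sum_Ioc_consecutive
        (fun n => (if n ≡ u [MOD q] then LQ Q n else 0) - c) (Nat.zero_le y)
        (Nat.le_add_right y m)
      rw [abs_le] at h4 h5 ⊢
      constructor <;> linarith [h4.1, h4.2, h5.1, h5.2])
  refine le_trans (le_of_eq ?_) h3
  congr 1
  rw [Finset.sum_filter, mul_sum, ← Finset.sum_sub_distrib]
  refine Finset.sum_congr rfl fun n _ => ?_
  by_cases hn : n ≡ u [MOD q]
  · rw [if_pos hn, if_pos hn]; push_cast; ring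
  · rw [if_neg hn, if_neg hn]; push_cast; ring

/-- for large `x` the logarithm is large and its powers are small compared with `x^(1/15)` -/
private theorem ev_sup (K : ℝ) (n : ℕ) : ∃ x₀ : ℕ, ∀ x : ℕ, x₀ ≤ x → K ≤ Real.log x ∧
    Real.log x ^ n ≤ (x : ℝ) ^ (1 / 15 : ℝ) := by
  have h1 : Tendsto (fun x : ℕ => Real.log (x : ℝ)) atTop atTop :=
    Real.tendsto_log_atTop.comp tendsto_natCast_atTop_atTop
  have h2 : ∀ᶠ x : ℝ in atTop, Real.log x ^ n ≤ x ^ (1 / 15 : ℝ) := by
    have h := (isLittleO_log_rpow_rpow_atTop (s := (1 / 15 : ℝ)) (n : ℝ) (by norm_num)).bound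
      (c := 1) (by norm_num)
    filter_upwards [h, eventually_ge_atTop 1] with x hx hx1
    have hl : 0 ≤ Real.log x := Real.log_nonneg hx1
    rw [Real.rpow_natCast, Real.norm_of_nonneg (by positivity),
      Real.norm_of_nonneg (by positivity), one_mul] at hx
    exact hx
  have h3 := (h1.eventually_ge_atTop K).and (tendsto_natCast_atTop_atTop.eventually h2)
  obtain ⟨x₀, hx₀⟩ := eventually_atTop.1 h3
  exact ⟨x₀, fun x hx => hx₀ x hx⟩

/-- `X / L ^ (a + b) * L ^ b = X / L ^ a` -/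
private theorem ar_sup (L X : ℝ) (hL : 0 < L) (a b : ℕ) :
    X / L ^ (a + b) * L ^ b = X / L ^ a := by
  rw [pow_add]
  field_simp

/-- `X ≤ H / L ^ k` from `X * L ^ k ≤ H` -/
private theorem le_div_sup (L X H : ℝ) (hL : 0 < L) (k : ℕ) (h : X * L ^ k ≤ H) :
    X ≤ H / L ^ k := by
  rw [le_div_iff₀ (by positivity)]
  exact h

set_option maxHeartbeats 1000000 in
theorem hSUP (h1 : StVaus) (h2 : StMed) (h3 : StLap) (h4 : StLmi) : StSup := by
  classical
  intro η η' hη hηη' hη'1 A B0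
  obtain ⟨C₁, hC₁, hVau⟩ := h1
  obtain ⟨hth, C₂, hC₂, hThb⟩ := hTh
  set B : ℕ := B0 + 2 * A + 20 with hB
  set B' : ℕ := 3 * B + 2 * A + 20 with hB'
  clear_value B'
  clear_value B
  obtain ⟨ym, hMed⟩ := h2 η η' hη hηη' hη'1 (A + B + 3) (B + 1) B'
  obtain ⟨y₁, hy₁⟩ := ev_sup (max 36 (4 * C₁ + 8 * C₂ + 2)) (4 * A + 4 * B + 2 * B' + 40)
  refine ⟨B, max ym (max y₁ 3), by omega, fun y h Q hy hh1 hh2 hQ1 hQ2 α => ?_⟩
  have hym : ym ≤ y := by omega
  have hy3 : 3 ≤ y := by omega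
  obtain ⟨hL0, hLs0⟩ := hy₁ y (by omega)
  set L : ℝ := Real.log y with hL
  set s : ℝ := (y : ℝ) ^ (1 / 15 : ℝ) with hs
  have hL36 : 36 ≤ L := (le_max_left _ _).trans hL0
  have hLC : 4 * C₁ + 8 * C₂ + 2 ≤ L := (le_max_right _ _).trans hL0
  have hL1 : 1 ≤ L := by linarith
  have hLpos : 0 < L := by linarith
  have hyr : (3 : ℝ) ≤ y := by exact_mod_cast hy3
  have hy0 : (0 : ℝ) < y := by linarith
  have hy1 : (1 : ℝ) ≤ y := by linarith
  have hs1 : 1 ≤ s := Real.one_le_rpow hy1 (by norm_num)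
  have hs0 : 0 < s := by linarith
  have hspow : ∀ k : ℕ, s ^ k = (y : ℝ) ^ ((k : ℝ) / 15) := by
    intro k
    rw [hs, ← Real.rpow_natCast, ← Real.rpow_mul hy0.le]
    congr 1; ring
  have hs15 : s ^ 15 = y := by
    rw [hspow]; norm_num
  have hh12 : s ^ 12 ≤ (h : ℝ) := by
    rw [hspow]
    refine le_trans ?_ hh1
    apply Real.rpow_le_rpow_of_exponent_le hy1
    norm_num
    linarith
  have hhy : (h : ℝ) ≤ y := by
    refine hh2.trans ?_
    calc (y : ℝ) ^ η' ≤ (y : ℝ) ^ (1 : ℝ) := Real.rpow_le_rpow_of_exponent_le hy1 hη'1.le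
      _ = y := Real.rpow_one _
  have hpow : ∀ i j : ℕ, i ≤ j → L ^ i ≤ L ^ j := fun i j h => pow_le_pow_right₀ hL1 h
  have spow : ∀ i j : ℕ, i ≤ j → s ^ i ≤ s ^ j := fun i j h => pow_le_pow_right₀ hs1 h
  have hLs : ∀ i : ℕ, i ≤ 4 * A + 4 * B + 2 * B' + 40 → L ^ i ≤ s := fun i hi =>
    (hpow _ _ hi).trans hLs0
  have hh0 : (0 : ℝ) < h := lt_of_lt_of_le (by positivity) hh12
  have hhsq : s ^ 24 ≤ (h : ℝ) ^ 2 := by
    calc s ^ 24 = (s ^ 12) ^ 2 := by rw [← pow_mul]
      _ ≤ (h : ℝ) ^ 2 := by gcongr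
  -- absorbing lemma
  have habs : ∀ i k : ℕ, i ≤ 4 * A + 4 * B + 2 * B' + 40 → s ^ k * L ^ i ≤ s ^ (k + 1) := by
    intro i k hi
    rw [pow_succ]
    exact mul_le_mul_of_nonneg_left (hLs i hi) (by positivity)
  have hQge1 : 1 ≤ Q := by
    have h1 : (1 : ℝ) ≤ L ^ B := one_le_pow₀ hL1
    have : (1 : ℝ) ≤ Q := h1.trans hQ1
    exact_mod_cast this
  have hQ0 : (0 : ℝ) < Q := by exact_mod_cast hQge1
  -- Dirichlet approximation
  set H : ℝ := (h : ℝ) ^ 2 / (y * L ^ B') with hH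
  have hH0 : 0 < H := by positivity
  have hyB : (y : ℝ) * L ^ B' ≤ s ^ 16 := by
    rw [← hs15]
    exact habs B' 15 (by omega)
  have hQH : 2 * (Q : ℝ) ≤ H := by
    rw [hH, le_div_iff₀ (by positivity)]
    calc 2 * (Q : ℝ) * (y * L ^ B') ≤ L * L ^ (B + 1) * (y * L ^ B') := by
          apply mul_le_mul_of_nonneg_right _ (by positivity)
          exact mul_le_mul (by linarith) hQ2 (by positivity) (by positivity)
      _ = s ^ 15 * L ^ (1 + (B + 1) + B') := by
          rw [hs15, pow_add L (1 + (B + 1)) B', pow_add L 1 (B + 1), pow_one]; ring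
      _ ≤ s ^ 16 := habs _ 15 (by omega)
      _ ≤ s ^ 24 := spow _ _ (by norm_num)
      _ ≤ _ := hhsq
  have hH1 : 1 ≤ H := by
    have : (1 : ℝ) ≤ Q := by exact_mod_cast hQge1
    linarith
  have hHh : H ≤ h := by
    rw [hH, div_le_iff₀ (by positivity), pow_two]
    apply mul_le_mul_of_nonneg_left _ hh0.le
    have h5 : (1 : ℝ) ≤ L ^ B' := one_le_pow₀ hL1
    nlinarith
  set M : ℕ := ⌊H⌋₊ with hM
  have hM1 : 0 < M := Nat.floor_pos.2 hH1
  have hMle : (M : ℝ) ≤ H := Nat.floor_le hH0.le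
  have hMlt : H < M + 1 := Nat.lt_floor_add_one _
  obtain ⟨r, hr1, hr2⟩ := Real.exists_rat_abs_sub_le_and_den_le α hM1
  set q : ℕ := r.den with hq
  set a : ℤ := r.num with ha
  have hq1 : 1 ≤ q := r.den_pos
  have hq0 : (0 : ℝ) < q := by exact_mod_cast hq1
  have hrq : (r : ℝ) = (a : ℝ) / q := by
    rw [ha, hq]
    exact (Rat.cast_def r)
  rw [hrq] at hr1
  have hqM' : (q : ℝ) ≤ M := by exact_mod_cast hr2
  have hqH : (q : ℝ) ≤ H := by linarith
  have hqh : q ≤ h := by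
    have : (q : ℝ) ≤ h := hqH.trans hHh
    exact_mod_cast this
  have hcop : IsCoprime a (q : ℤ) := by
    rw [Int.isCoprime_iff_nat_coprime]
    exact r.reduced
  have hApx : Apx α a q := by
    refine ⟨hq1, hcop, hr1.trans ?_⟩
    rw [div_le_div_iff₀ (by positivity) (by positivity), one_mul, one_mul, pow_two]
    apply mul_le_mul_of_nonneg_right _ hq0.le
    linarith
  by_cases hmaj : q ≤ Q
  · -- medium arcs
    have hmaj' : (q : ℝ) ≤ Q := by exact_mod_cast hmaj
    have hmajL : (q : ℝ) ≤ L ^ (B + 1) := hmaj'.trans hQ2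
    set β : ℝ := α - a / q with hβ
    have hαβ : α = a / q + β := by rw [hβ]; ring
    have hβ1 : |β| ≤ y * L ^ B' / (h : ℝ) ^ 2 := by
      have h1 : |β| ≤ 1 / ((M : ℝ) + 1) := by
        refine hr1.trans ?_
        apply div_le_div_of_nonneg_left (by norm_num) (by positivity)
        have : (1 : ℝ) ≤ q := by exact_mod_cast hq1
        nlinarith [(Nat.cast_nonneg M : (0 : ℝ) ≤ M)]
      have h2 : 1 / ((M : ℝ) + 1) ≤ 1 / H :=
        div_le_div_of_nonneg_left (by norm_num) hH0 hMlt.le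
      have h5 : 1 / H = y * L ^ B' / (h : ℝ) ^ 2 := by
        rw [hH, one_div_div]
      linarith
    set D : ℝ := h / L ^ (A + B + 3) with hD
    have hD0 : 0 ≤ D := by positivity
    have hlq : 4 * (Q : ℝ) ^ 2 * (1 + 2 * Real.pi * |β| * h) ≤ D := by
      have hpi : Real.pi ≤ 4 := Real.pi_le_four
      have e1 : 2 * Real.pi * |β| * h ≤ 8 * (y * L ^ B' / (h : ℝ)) := by
        calc 2 * Real.pi * |β| * h ≤ 2 * 4 * (y * L ^ B' / (h : ℝ) ^ 2) * h := by gcongr
          _ = 8 * (y * L ^ B' / (h : ℝ)) := by field_simp; ring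
      have e2 : 1 ≤ y * L ^ B' / (h : ℝ) := by
        rw [le_div_iff₀ hh0, one_mul]
        have h5 : (1 : ℝ) ≤ L ^ B' := one_le_pow₀ hL1
        nlinarith
      have e3 : 1 + 2 * Real.pi * |β| * h ≤ 9 * (y * L ^ B' / (h : ℝ)) := by linarith
      have e4 : (Q : ℝ) ^ 2 ≤ L ^ (2 * B + 2) := by
        calc (Q : ℝ) ^ 2 ≤ (L ^ (B + 1)) ^ 2 := by gcongr
          _ = L ^ (2 * B + 2) := by rw [← pow_mul]; congr 1; ring
      calc 4 * (Q : ℝ) ^ 2 * (1 + 2 * Real.pi * |β| * h)
          ≤ 4 * L ^ (2 * B + 2) * (9 * (y * L ^ B' / (h : ℝ))) := by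
            apply mul_le_mul _ e3 (by positivity) (by positivity)
            linarith
        _ = 36 * (y * L ^ (2 * B + 2 + B')) / h := by
            rw [pow_add L (2 * B + 2) B']; ring
        _ ≤ L * (y * L ^ (2 * B + 2 + B')) / h := by gcongr
        _ = s ^ 15 * L ^ (1 + (2 * B + 2 + B')) / h := by
            rw [hs15, pow_add L 1 (2 * B + 2 + B'), pow_one]; ring
        _ ≤ D := by
            rw [hD, div_le_div_iff₀ hh0 (by positivity), mul_assoc, ← pow_add, ← pow_two]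
            calc s ^ 15 * L ^ (1 + (2 * B + 2 + B') + (A + B + 3)) ≤ s ^ 16 :=
                  habs _ 15 (by omega)
              _ ≤ s ^ 24 := spow _ _ (by norm_num)
              _ ≤ _ := hhsq
    have hcls : ∀ u : ℕ, ‖∑ n ∈ (Ioc y (y + h)).filter (fun n => n ≡ u [MOD q]),
        ((th n - LQ Q n : ℝ) : ℂ) * ex (n * β)‖ ≤ 2 * D := by
      intro u
      have m1 := hMed y h q u hym hh1 hh2 hq1 hmajL β hβ1
      have m2 := (lq_sup h3 Q q u y h β hq1 hmaj).trans hlq
      have e5 : ∑ n ∈ (Ioc y (y + h)).filter (fun n => n ≡ u [MOD q]),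
          ((th n - LQ Q n : ℝ) : ℂ) * ex (n * β) =
          (∑ n ∈ (Ioc y (y + h)).filter (fun n => n ≡ u [MOD q]), (th n : ℂ) * ex (n * β) -
            (((if Nat.Coprime u q then 1 / (Nat.totient q : ℝ) else 0) : ℝ) : ℂ) *
              ∑ n ∈ Ioc y (y + h), ex (n * β)) -
          (∑ n ∈ (Ioc y (y + h)).filter (fun n => n ≡ u [MOD q]), (LQ Q n : ℂ) * ex (n * β) -
            (((if Nat.Coprime u q then 1 / (Nat.totient q : ℝ) else 0) : ℝ) : ℂ) *
              ∑ n ∈ Ioc y (y + h), ex (n * β)) := by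
        rw [sub_sub_sub_cancel_right, ← Finset.sum_sub_distrib]
        refine Finset.sum_congr rfl fun n _ => ?_
        push_cast; ring
      rw [e5]
      refine (norm_sub_le _ _).trans ?_
      rw [two_mul]
      refine add_le_add ?_ m2
      exact m1
    rw [hαβ, dec_sup _ y h q a β hq1]
    calc ‖∑ u ∈ range q, ex (u * (a / q)) *
          ∑ n ∈ (Ioc y (y + h)).filter (fun n => n ≡ u [MOD q]),
            ((th n - LQ Q n : ℝ) : ℂ) * ex (n * β)‖
        ≤ ∑ _u ∈ range q, 2 * D := by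
          refine (norm_sum_le _ _).trans (Finset.sum_le_sum fun u _ => ?_)
          rw [norm_mul, norm_ex_PS, one_mul]
          exact hcls u
      _ = q * (2 * D) := by rw [sum_const, card_range, nsmul_eq_mul]
      _ ≤ L ^ (B + 1) * (2 * D) := mul_le_mul_of_nonneg_right hmajL (by positivity)
      _ = 2 * (h / L ^ (A + 2)) := by
          have e6 := ar_sup L h hLpos (A + 2) (B + 1)
          rw [show A + 2 + (B + 1) = A + B + 3 by ring] at e6
          rw [hD, ← e6]; ring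
      _ ≤ L ^ 2 * (h / L ^ (A + 2)) := by
          apply mul_le_mul_of_nonneg_right _ (by positivity)
          nlinarith
      _ = h / L ^ A := by
          rw [mul_comm]; exact ar_sup L h hLpos A 2
  · -- minor arcs
    push Not at hmaj
    have hmaj' : (Q : ℝ) < q := by exact_mod_cast hmaj
    have hqL : L ^ B ≤ (q : ℝ) := hQ1.trans hmaj'.le
    have hqL2 : L ^ (2 * (A + 10)) ≤ (q : ℝ) := (hpow _ _ (by omega)).trans hqL
    have hsq : L ^ (A + 10) ≤ √(q : ℝ) := by
      apply Real.le_sqrt_of_sq_le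
      rw [← pow_mul, mul_comm]
      exact hqL2
    have hT1 : h / √(q : ℝ) ≤ h / L ^ (A + 10) :=
      div_le_div_of_nonneg_left hh0.le (by positivity) hsq
    set U : ℕ := ⌊s ^ 5⌋₊ with hU
    have hU1 : 1 ≤ U := Nat.le_floor (by simpa using one_le_pow₀ hs1)
    have hUle : (U : ℝ) ≤ s ^ 5 := Nat.floor_le (by positivity)
    have hUge : s ^ 5 ≤ 2 * U := by
      have h1 := Nat.lt_floor_add_one (s ^ 5)
      have h2 : (1 : ℝ) ≤ U := by exact_mod_cast hU1
      rw [← hU] at h1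
      linarith
    have hU0 : (0 : ℝ) < U := by exact_mod_cast hU1
    have hsqL : (h / L ^ (A + 10)) ^ 2 = (h : ℝ) ^ 2 / L ^ (2 * (A + 10)) := by
      rw [div_pow, ← pow_mul, mul_comm (A + 10) 2]
    have hT2 : √((y : ℝ) * h / U) ≤ h / L ^ (A + 10) := by
      rw [Real.sqrt_le_left (by positivity), hsqL,
        div_le_div_iff₀ hU0 (by positivity)]
      have e1 : (y : ℝ) * L ^ (2 * (A + 10)) ≤ s ^ 16 := by
        rw [← hs15]; exact habs _ 15 (by omega)
      have e2 : s ^ 16 ≤ (h : ℝ) * (U : ℝ) := by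
        have e3 : s ^ 17 ≤ 2 * ((h : ℝ) * (U : ℝ)) := by
          calc s ^ 17 = s ^ 12 * s ^ 5 := by rw [← pow_add]
            _ ≤ (h : ℝ) * (2 * (U : ℝ)) := mul_le_mul hh12 hUge (by positivity) hh0.le
            _ = 2 * ((h : ℝ) * (U : ℝ)) := by ring
        have e4 : 2 * s ^ 16 ≤ s ^ 17 := by
          have e5 : 2 ≤ s := by
            have := hLs 1 (by omega)
            rw [pow_one] at this
            linarith
          calc 2 * s ^ 16 ≤ s * s ^ 16 := mul_le_mul_of_nonneg_right e5 (by positivity)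
            _ = s ^ 17 := by ring
        linarith
      calc (y : ℝ) * h * L ^ (2 * (A + 10))
          = (h : ℝ) * ((y : ℝ) * L ^ (2 * (A + 10))) := by ring
        _ ≤ (h : ℝ) * ((h : ℝ) * (U : ℝ)) :=
          mul_le_mul_of_nonneg_left (e1.trans e2) hh0.le
        _ = (h : ℝ) ^ 2 * (U : ℝ) := by ring
    have hT3 : √((y : ℝ) * q) ≤ h / L ^ (A + 10) := by
      rw [Real.sqrt_le_left (by positivity), hsqL]
      calc (y : ℝ) * q ≤ y * H := mul_le_mul_of_nonneg_left hqH hy0.le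
        _ = (h : ℝ) ^ 2 / L ^ B' := by rw [hH]; field_simp
        _ ≤ (h : ℝ) ^ 2 / L ^ (2 * (A + 10)) := by
          apply div_le_div_of_nonneg_left (by positivity) (by positivity)
          exact hpow _ _ (by omega)
    have hU2 : (U : ℝ) ^ 2 ≤ s ^ 10 := by
      calc (U : ℝ) ^ 2 ≤ (s ^ 5) ^ 2 := by gcongr
        _ = s ^ 10 := by rw [← pow_mul]
    have hU2h : U ^ 2 ≤ h := by
      have : (U : ℝ) ^ 2 ≤ h := hU2.trans ((spow _ _ (by norm_num)).trans hh12)
      exact_mod_cast this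
    have hT4 : (U : ℝ) ^ 2 ≤ h / L ^ (A + 10) := by
      refine hU2.trans (le_div_sup L _ _ hLpos _ ?_)
      exact (habs _ 10 (by omega)).trans ((spow 11 12 (by norm_num)).trans hh12)
    have hh3 : 3 ≤ h := by
      have e1 : (3 : ℝ) ≤ s ^ 12 := by
        have e5 : 36 ≤ s := by
          have := hLs 1 (by omega)
          rw [pow_one] at this
          linarith
        calc (3 : ℝ) ≤ s := by linarith
          _ = s ^ 1 := (pow_one s).symm
          _ ≤ s ^ 12 := spow _ _ (by norm_num)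
      have : (3 : ℝ) ≤ h := e1.trans hh12
      exact_mod_cast this
    have hhyN : h ≤ y := by exact_mod_cast hhy
    have v1 := hVau y h U q a α hh3 hhyN hU1 hU2h hqh hApx
    have v2 : ‖SI (fun n => Λ n) y h α‖ ≤ 4 * C₁ * (h / L ^ (A + 3)) := by
      refine v1.trans ?_
      calc C₁ * ((h : ℝ) / √q + √((y : ℝ) * h / U) + √((y : ℝ) * q) + (U : ℝ) ^ 2) * L ^ 7
          ≤ C₁ * (4 * (h / L ^ (A + 10))) * L ^ 7 := by
            apply mul_le_mul_of_nonneg_right _ (by positivity)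
            apply mul_le_mul_of_nonneg_left _ hC₁.le
            linarith
        _ = 4 * C₁ * (h / L ^ (A + 3)) := by
            have e1 := ar_sup L h hLpos (A + 3) 7
            rw [show A + 3 + 7 = A + 10 by ring] at e1
            rw [← e1]; ring
    have m1 : (h : ℝ) / L ^ (A + 3) ≤ h / L ^ (A + 1) := by
      apply div_le_div_of_nonneg_left hh0.le (by positivity)
      exact hpow _ _ (by omega)
    -- prime powers
    have w1 : ‖SI (fun n => Λ n - th n) y h α‖ ≤ 8 * C₂ * (h / L ^ (A + 1)) := by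
      refine (SI_le_sup _ (fun n => by linarith [(hth n).2.1]) y h α).trans ?_
      refine (hThb (y + h) (by omega)).trans ?_
      have e1 : ((y + h : ℕ) : ℝ) ≤ 2 * y := by push_cast; linarith
      have e2 : √((y + h : ℕ) : ℝ) ≤ 2 * s ^ 8 := by
        rw [Real.sqrt_le_left (by positivity)]
        calc ((y + h : ℕ) : ℝ) ≤ 2 * s ^ 15 := by rw [hs15]; exact e1
          _ ≤ 2 * s ^ 16 := by
            have := spow 15 16 (by norm_num)
            linarith
          _ ≤ (2 * s ^ 8) ^ 2 := by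
            rw [mul_pow, ← pow_mul]
            have : 0 ≤ s ^ 16 := by positivity
            norm_num
            linarith
      have e3 : Real.log ((y + h : ℕ) : ℝ) ≤ 2 * L := by
        calc Real.log ((y + h : ℕ) : ℝ) ≤ Real.log ((y : ℝ) ^ 2) := by
              apply Real.log_le_log
              · push_cast; linarith
              · nlinarith
          _ = 2 * L := by rw [Real.log_pow, hL]; norm_num
      have e4 : 0 ≤ Real.log ((y + h : ℕ) : ℝ) := Real.log_nonneg (by push_cast; linarith)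
      calc C₂ * √((y + h : ℕ) : ℝ) * Real.log ((y + h : ℕ) : ℝ) ^ 2
          ≤ C₂ * (2 * s ^ 8) * (2 * L) ^ 2 := by gcongr
        _ = 8 * C₂ * (s ^ 8 * L ^ 2) := by ring
        _ ≤ 8 * C₂ * (h / L ^ (A + 1)) := by
            apply mul_le_mul_of_nonneg_left _ (by positivity)
            refine le_div_sup L _ _ hLpos _ ?_
            rw [mul_assoc, ← pow_add]
            exact (habs _ 8 (by omega)).trans ((spow 9 12 (by norm_num)).trans hh12)
    -- the model
    have hcond : |α - a / q| ≤ 1 / (2 * q * Q) := by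
      refine hr1.trans ?_
      apply div_le_div_of_nonneg_left (by norm_num) (by positivity)
      nlinarith
    have x1 : ‖SI (fun n => LQ Q n) y h α‖ ≤ 2 * (h / L ^ (A + 1)) := by
      rw [SI_Sx_sup]
      refine (norm_sub_le _ _).trans ?_
      have l1 := h4 Q q (y + h) a α hQge1 hmaj hcop hcond
      have l2 := h4 Q q y a α hQge1 hmaj hcop hcond
      have e4 : (Q : ℝ) ^ 2 ≤ L ^ (2 * B + 2) := by
        calc (Q : ℝ) ^ 2 ≤ (L ^ (B + 1)) ^ 2 := by gcongr
          _ = L ^ (2 * B + 2) := by rw [← pow_mul]; congr 1; ring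
      have e5 : (q : ℝ) * (Q : ℝ) ^ 2 ≤ h / L ^ (A + 1) := by
        calc (q : ℝ) * (Q : ℝ) ^ 2 ≤ H * L ^ (2 * B + 2) :=
              mul_le_mul hqH e4 (by positivity) hH0.le
          _ ≤ h / L ^ (A + 1) := by
              rw [hH, div_mul_eq_mul_div, div_le_div_iff₀ (by positivity) (by positivity)]
              calc (h : ℝ) ^ 2 * L ^ (2 * B + 2) * L ^ (A + 1) =
                    (h : ℝ) * (h * L ^ (2 * B + 2 + (A + 1))) := by
                    rw [pow_add L (2 * B + 2) (A + 1)]; ring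
                _ ≤ h * (y * L ^ B') := by
                    apply mul_le_mul_of_nonneg_left _ hh0.le
                    exact mul_le_mul hhy (hpow _ _ (by omega)) (by positivity) hy0.le
      have l1' : ‖Sx (fun n => LQ Q n) (y + h) α‖ ≤ q * (Q : ℝ) ^ 2 := l1
      have l2' : ‖Sx (fun n => LQ Q n) y α‖ ≤ q * (Q : ℝ) ^ 2 := l2
      linarith
    have hdecomp : SI (fun n => th n - LQ Q n) y h α = SI (fun n => Λ n) y h α -
        SI (fun n => Λ n - th n) y h α - SI (fun n => LQ Q n) y h α := by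
      rw [SI_sub_sup (fun n => th n), SI_sub_sup (fun n => Λ n)]
      ring
    rw [hdecomp]
    refine (norm_sub_le _ _).trans ?_
    have n1 := norm_sub_le (SI (fun n => Λ n) y h α) (SI (fun n => Λ n - th n) y h α)
    have n2 := mul_le_mul_of_nonneg_left m1 (by positivity : (0 : ℝ) ≤ 4 * C₁)
    have hfin : ‖SI (fun n => Λ n) y h α - SI (fun n => Λ n - th n) y h α‖ +
        ‖SI (fun n => LQ Q n) y h α‖ ≤ (4 * C₁ + 8 * C₂ + 2) * (h / L ^ (A + 1)) := by
      linarith
    refine hfin.trans ?_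
    calc (4 * C₁ + 8 * C₂ + 2) * (h / L ^ (A + 1)) ≤ L * (h / L ^ (A + 1)) := by
          apply mul_le_mul_of_nonneg_right hLC; positivity
      _ = h / L ^ A := by
          rw [pow_succ]; field_simp

end Pool.Agent.Helper4.SU
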